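import Pool.Agent.Helper78.DT.Goals

/-!
# Packet DT-BRK (project DT of helper78, MP_34c247_lc): greedy sublist and brackets
-/

set_option autoImplicit false

namespace Pool.Agent.Helper13.DT

open Pool.Agent.Helper78.DT

open scoped Classical

variable {V : Type}

/-! ### One variable -/

section Half

variable [DecidableEq V]

/-- flipping the variable `v` -/
def flip (v : V) : (V → Bool) ≃ (V → Bool) where
  toFun x := Function.update x v (!x v)
  invFun x := Function.update x v (!x v)
  left_inv x := by
    funext w
    by_cases h : w = v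
    · subst h; simp
    · simp [Function.update_of_ne h]
  right_inv x := by
    funext w
    by_cases h : w = v
    · subst h; simp
    · simp [Function.update_of_ne h]

lemma flip_apply (v : V) (x : V → Bool) : flip v x = Function.update x v (!x v) := rfl

variable [Fintype V]

lemma pr_half (v : V) (b : Bool) (E : (V → Bool) → Prop) (hE : ∀ x, E (flip v x) ↔ E x) :
    pr (fun x => x v = b ∧ E x) * 2 = pr E := by
  have h1 : pr (fun x => x v = b ∧ E x) = pr (fun x => x v = (!b) ∧ E x) := by
    rw [← pr_equiv (flip v) (fun x => x v = b ∧ E x)]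
    refine pr_congr fun x => ?_
    rw [hE, flip_apply, Function.update_self]
    cases b <;> cases x v <;> simp
  have h2 : pr E = pr (fun x => x v = b ∧ E x) + pr (fun x => x v = (!b) ∧ E x) := by
    unfold pr
    rw [← av_add]
    refine av_congr fun x => ?_
    by_cases h : E x
    · cases b <;> cases hx : x v <;> simp [h, hx]
    · simp [h]
  rw [h2, ← h1]
  ring

/-- Consistent literals outside of the variables of an event. -/
lemma pr_lits (A : Tm V) (hA : ∀ p ∈ A, ∀ q ∈ A, p.1 = q.1 → p = q) (E : (V → Bool) → Prop)
    (hE : ∀ p ∈ A, ∀ x, E (flip p.1 x) ↔ E x) :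
    pr (fun x => Sat A x ∧ E x) * 2 ^ A.card = pr E := by
  induction A using Finset.induction_on with
  | empty =>
    simp [Sat]
  | insert p A hp ih =>
    have hA' : ∀ p ∈ A, ∀ q ∈ A, p.1 = q.1 → p = q := fun p hp q hq =>
      hA p (Finset.mem_insert_of_mem hp) q (Finset.mem_insert_of_mem hq)
    have hE' : ∀ p ∈ A, ∀ x, E (flip p.1 x) ↔ E x := fun p hp =>
      hE p (Finset.mem_insert_of_mem hp)
    have h1 := ih hA' hE'
    have h2 : pr (fun x => x p.1 = p.2 ∧ (Sat A x ∧ E x)) * 2 = pr (fun x => Sat A x ∧ E x) := by
      refine pr_half p.1 p.2 (fun x => Sat A x ∧ E x) fun x => ?_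
      refine and_congr ?_ (hE p (Finset.mem_insert_self p A) x)
      have h3 : ∀ q ∈ A, (flip p.1 x) q.1 = x q.1 := by
        intro q hq
        have hne : q.1 ≠ p.1 := by
          intro h
          have := hA q (Finset.mem_insert_of_mem hq) p (Finset.mem_insert_self p A) h
          rw [this] at hq
          exact hp hq
        rw [flip_apply, Function.update_of_ne hne]
      constructor
      · intro h q hq
        rw [← h3 q hq]
        exact h q hq
      · intro h q hq
        rw [h3 q hq]
        exact h q hq
    have h4 : pr (fun x => Sat (insert p A) x ∧ E x) =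
        pr (fun x => x p.1 = p.2 ∧ (Sat A x ∧ E x)) := by
      refine pr_congr fun x => ?_
      unfold Sat
      rw [Finset.forall_mem_insert, and_assoc]
    rw [Finset.card_insert_of_notMem hp, pow_succ, h4, ← h1, ← h2]
    ring

end Half

/-! ### The greedy sublist -/

section Greedy

variable [Fintype V] [DecidableEq V]

/-- The entries of the second list which are kept, when the accumulator is the first list. -/
noncomputable def kp (k : ℝ) : DL V → DL V → DL V
  | _, [] => []
  | g, e :: f => if k < pr (fun x => Sat e.1 x ∧ NoSat g x) then e :: kp k (g ++ [e]) f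
      else kp k g f

lemma kp_cons_pos (k : ℝ) (g f : DL V) (e : Tm V × Bool)
    (h : k < pr (fun x => Sat e.1 x ∧ NoSat g x)) :
    kp k g (e :: f) = e :: kp k (g ++ [e]) f := by
  rw [kp, if_pos h]

lemma kp_cons_neg (k : ℝ) (g f : DL V) (e : Tm V × Bool)
    (h : ¬ k < pr (fun x => Sat e.1 x ∧ NoSat g x)) :
    kp k g (e :: f) = kp k g f := by
  rw [kp, if_neg h]

lemma kp_sub (k : ℝ) (f : DL V) : ∀ g : DL V, (kp k g f).Sublist f := by
  induction f with
  | nil => intro g; exact List.Sublist.refl _
  | cons e f ih =>
    intro g
    by_cases h : k < pr (fun x => Sat e.1 x ∧ NoSat g x)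
    · rw [kp_cons_pos k g f e h]
      exact (ih _).cons_cons e
    · rw [kp_cons_neg k g f e h]
      exact (ih _).cons e

/-- Every kept entry has large probability. -/
lemma kp_large (k : ℝ) (f : DL V) : ∀ (g : DL V) (i : Fin (kp k g f).length),
    k < pr (fun x => Sat ((kp k g f).get i).1 x ∧ NoSat (g ++ (kp k g f).take i) x) := by
  induction f with
  | nil => intro g i; exact i.elim0
  | cons e f ih =>
    intro g
    by_cases h : k < pr (fun x => Sat e.1 x ∧ NoSat g x)
    · rw [kp_cons_pos k g f e h]
      intro i
      refine Fin.cases ?_ (fun j => ?_) i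
      · simpa using h
      · have := ih (g ++ [e]) j
        simpa using this
    · rw [kp_cons_neg k g f e h]
      exact ih g

/-- The value of the list at an assignment. -/
lemma kp_ev (k : ℝ) (x : V → Bool) (f : DL V) : ∀ g : DL V, NoSat g x →
    ev f x = ev (kp k g f) x ∨ ∃ l ≤ (g ++ kp k g f).length, NoSat ((g ++ kp k g f).take l) x ∧
      ∃ e ∈ f, Sat e.1 x ∧ pr (fun y => Sat e.1 y ∧ NoSat ((g ++ kp k g f).take l) y) ≤ k := by
  induction f with
  | nil => intro g _; left; rfl
  | cons e f ih =>
    intro g hg
    by_cases h : k < pr (fun x => Sat e.1 x ∧ NoSat g x)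
    · rw [kp_cons_pos k g f e h]
      by_cases hs : Sat e.1 x
      · left
        simp [ev, hs]
      · have hg' : NoSat (g ++ [e]) x := by
          intro a ha
          rcases List.mem_append.1 ha with ha | ha
          · exact hg a ha
          · rw [List.mem_singleton.1 ha]
            exact hs
        have e1 : g ++ e :: kp k (g ++ [e]) f = (g ++ [e]) ++ kp k (g ++ [e]) f := by simp
        rw [e1]
        rcases ih (g ++ [e]) hg' with h1 | ⟨l, hl, h1, a, ha, h2, h3⟩
        · left
          simp only [ev, if_neg hs]
          exact h1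
        · right
          exact ⟨l, hl, h1, a, List.mem_cons_of_mem _ ha, h2, h3⟩
    · rw [kp_cons_neg k g f e h]
      by_cases hs : Sat e.1 x
      · right
        refine ⟨g.length, by simp, ?_, e, List.mem_cons_self, hs, ?_⟩
        · rw [List.take_left]
          exact hg
        · rw [List.take_left]
          exact not_lt.1 h
      · rcases ih g hg with h1 | ⟨l, hl, h1, a, ha, h2, h3⟩
        · left
          simp only [ev, if_neg hs]
          exact h1
        · right
          exact ⟨l, hl, h1, a, List.mem_cons_of_mem _ ha, h2, h3⟩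

omit [Fintype V] [DecidableEq V] in
lemma first_iff (g : DL V) (i : Fin g.length) (x : V → Bool) :
    First g i x ↔ Sat (g.get i).1 x ∧ NoSat (g.take i) x := by
  unfold First NoSat
  refine and_congr Iff.rfl ?_
  constructor
  · intro h e he
    obtain ⟨j, hj, rfl⟩ := List.getElem_of_mem he
    have hj1 : j < (i : ℕ) := by
      have := hj
      rw [List.length_take] at this
      omega
    have hj2 : j < g.length := by omega
    rw [List.getElem_take]
    exact h ⟨j, hj2⟩ hj1
  · intro h j hj
    refine h (g.get j) ?_
    rw [List.get_eq_getElem]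
    have h1 : (j : ℕ) < (g.take i).length := by
      rw [List.length_take]
      have := i.2
      have h2 : (j : ℕ) < (i : ℕ) := hj
      omega
    have h2 : (g.take i)[(j : ℕ)] = g[(j : ℕ)] := List.getElem_take
    rw [← h2]
    exact List.getElem_mem h1

/-- Small entries give the exceptional event. -/
lemma bad_of (t : ℕ) (k : ℝ) (g : DL V) (x : V → Bool) (l : ℕ) (hl : l ≤ g.length)
    (hno : NoSat (g.take l) x) (T : Tm V) (hT : T.card ≤ t) (hs : Sat T x)
    (hk : pr (fun y => Sat T y ∧ NoSat (g.take l) y) ≤ k) : Bad t (2 ^ t * k) g x := by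
  have hk0 : 0 ≤ k := (pr_nonneg _).trans hk
  refine ⟨l, hl, hno, T.filter (fun p => p.1 ∈ vars g), ?_, ?_, ?_, ?_⟩
  · intro p hp
    exact (Finset.mem_filter.1 hp).2
  · exact (Finset.card_filter_le _ _).trans hT
  · intro p hp
    exact hs p (Finset.mem_filter.1 hp).1
  · obtain ⟨A, hA⟩ : ∃ A : Tm V, A = T.filter (fun p => p.1 ∉ vars g) := ⟨_, rfl⟩
    obtain ⟨B, hB⟩ : ∃ B : Tm V, B = T.filter (fun p => p.1 ∈ vars g) := ⟨_, rfl⟩
    rw [← hB]
    have hAc : A.card ≤ t := by
      rw [hA]
      exact (Finset.card_filter_le _ _).trans hT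
    have hcons : ∀ p ∈ A, ∀ q ∈ A, p.1 = q.1 → p = q := by
      intro p hp q hq h
      rw [hA] at hp hq
      have h1 := hs p (Finset.mem_filter.1 hp).1
      have h2 := hs q (Finset.mem_filter.1 hq).1
      refine Prod.ext h ?_
      rw [← h1, ← h2, h]
    have hdep : ∀ p ∈ A, ∀ y, (Sat B (flip p.1 y) ∧ NoSat (g.take l) (flip p.1 y)) ↔
        (Sat B y ∧ NoSat (g.take l) y) := by
      intro p hp y
      rw [hA] at hp
      have hpv := (Finset.mem_filter.1 hp).2
      have hval : ∀ v ∈ vars g, (flip p.1 y) v = y v := by
        intro v hv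
        have hne : v ≠ p.1 := by
          intro h
          rw [h] at hv
          exact hpv hv
        rw [flip_apply, Function.update_of_ne hne]
      refine and_congr ?_ ?_
      · have hB1 : ∀ q ∈ B, (flip p.1 y) q.1 = y q.1 := by
          intro q hq
          rw [hB] at hq
          exact hval _ (Finset.mem_filter.1 hq).2
        constructor
        · intro h q hq
          rw [← hB1 q hq]
          exact h q hq
        · intro h q hq
          rw [hB1 q hq]
          exact h q hq
      · have hg1 : ∀ e ∈ g.take l, (Sat e.1 (flip p.1 y) ↔ Sat e.1 y) := by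
          intro e he
          have heg : e ∈ g := List.mem_of_mem_take he
          have h1 : ∀ q ∈ e.1, (flip p.1 y) q.1 = y q.1 := fun q hq => hval _ ⟨e, heg, q, hq, rfl⟩
          constructor
          · intro h q hq
            rw [← h1 q hq]
            exact h q hq
          · intro h q hq
            rw [h1 q hq]
            exact h q hq
        constructor
        · intro h e he hse
          exact h e he ((hg1 e he).2 hse)
        · intro h e he hse
          exact h e he ((hg1 e he).1 hse)
    have h1 := pr_lits A hcons (fun y => Sat B y ∧ NoSat (g.take l) y) hdep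
    have h2 : pr (fun y => Sat A y ∧ (Sat B y ∧ NoSat (g.take l) y)) =
        pr (fun y => Sat T y ∧ NoSat (g.take l) y) := by
      refine pr_congr fun y => ?_
      rw [← and_assoc]
      refine and_congr ?_ Iff.rfl
      constructor
      · rintro ⟨ha, hb⟩ p hp
        by_cases hv : p.1 ∈ vars g
        · exact hb p (by rw [hB]; exact Finset.mem_filter.2 ⟨hp, hv⟩)
        · exact ha p (by rw [hA]; exact Finset.mem_filter.2 ⟨hp, hv⟩)
      · intro h
        refine ⟨fun p hp => h p ?_, fun p hp => h p ?_⟩
        · rw [hA] at hp
          exact (Finset.mem_filter.1 hp).1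
        · rw [hB] at hp
          exact (Finset.mem_filter.1 hp).1
    rw [h2] at h1
    rw [← h1, mul_comm]
    calc 2 ^ A.card * pr (fun y => Sat T y ∧ NoSat (g.take l) y) ≤ 2 ^ A.card * k :=
          mul_le_mul_of_nonneg_left hk (by positivity)
      _ ≤ 2 ^ t * k := mul_le_mul_of_nonneg_right
          (pow_le_pow_right₀ (by norm_num) hAc) hk0

end Greedy

theorem brk (hKey : KeyStmt) : BrkStmt := by
  intro V _ _ η k t f hη hη1 hk hw
  have hsub := kp_sub k f []
  refine ⟨kp k [] f, hsub, ?_, ?_⟩
  · have hwg : Wid t (kp k [] f) := fun e he => hw e (hsub.subset he)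
    have h1 := hKey V η t (kp k [] f) hη hη1 hwg
    refine le_trans ?_ h1
    have h2 : ∀ i : Fin (kp k [] f).length, k ^ η ≤ pr (First (kp k [] f) i) ^ η := by
      intro i
      have h3 := kp_large k f [] i
      have h4 : pr (First (kp k [] f) i) = pr (fun x => Sat ((kp k [] f).get i).1 x ∧
          NoSat ([] ++ (kp k [] f).take i) x) := by
        refine pr_congr fun x => ?_
        rw [List.nil_append]
        exact first_iff _ _ _
      rw [h4]
      exact Real.rpow_le_rpow hk.le h3.le hη.le
    calc ((kp k [] f).length : ℝ) * k ^ η = ∑ _i : Fin (kp k [] f).length, k ^ η := by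
          rw [Finset.sum_const, Finset.card_univ, Fintype.card_fin, nsmul_eq_mul]
      _ ≤ ∑ i, pr (First (kp k [] f) i) ^ η := Finset.sum_le_sum fun i _ => h2 i
  · intro x
    have h0 : NoSat ([] : DL V) x := fun e he => absurd he List.not_mem_nil
    have key : ev f x = ev (kp k [] f) x ∨ Bad t (2 ^ t * k) (kp k [] f) x := by
      rcases kp_ev k x f [] h0 with h | ⟨l, hl, h1, e, he, h2, h3⟩
      · exact Or.inl h
      · right
        rw [List.nil_append] at hl h1 h3
        exact bad_of t k _ x l hl h1 e.1 (hw e he) h2 h3
    constructor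
    · rintro ⟨h1, h2⟩
      rcases key with h | h
      · rw [h]; exact h1
      · exact absurd h h2
    · intro h1
      rcases key with h | h
      · left
        rw [← h]; exact h1
      · exact Or.inr h

end Pool.Agent.Helper13.DT
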